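import Pool.Agent.E8helper48.RR.Stm3

/-! Piece NALG. -/

set_option autoImplicit false

namespace Pool.Agent.E8helper42.RR

theorem t_NALG : RR48.S_NALG := by
  intro al A E z S I hal hA hE hz heq hq hI hIS h1 h2
  have hK0 : 0 < A ^ 2 + A * z + al + z := by positivity
  -- the product
  have hprod : (A ^ 2 + A * z + al + z) + al * E ≤ E ^ 2 * (S * I) := by
    have h3 : (S - I) * ((A ^ 2 + A * z + al + z) + al * E) ≤ (S - I) * (E ^ 2 * (S * I)) := by
      nlinarith [h1, h2]
    exact le_of_mul_le_mul_left h3 (sub_pos.mpr hIS)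
  have h4 : (S + I) * (A ^ 2 + A * z + al + z) + (2 * A + z) * E * (S * I) ≤
      al * A + al * z + al + z := by
    have h5 := mul_le_mul_of_nonneg_right hprod hI.le
    nlinarith [h1, h5]
  have hKz : (A ^ 2 + A * z + al + z) + al * E - E ^ 2 * z ^ 2 =
      (2 * E + 1) * z ^ 2 + ((2 + E) * A - E) * z + A ^ 2 := by
    have hal' : al = z * (A + (E + 1) * z) - z := by linarith
    rw [hal']
    ring
  have hR : al * A + al * z + al + z = z * (A ^ 2 + A * z + al + z) + (2 * A + z) * E * z ^ 2 +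
      E ^ 2 * z ^ 3 - al * E * z := by
    have hal' : al = z * (A + (E + 1) * z) - z := by linarith
    rw [hal']
    ring
  have hSI : z ^ 2 ≤ S * I := by
    have h6 : E ^ 2 * z ^ 2 ≤ E ^ 2 * (S * I) := by linarith
    exact le_of_mul_le_mul_left h6 (by positivity)
  have hS : 0 < S := hI.trans hIS
  have hsum : 2 * z < S + I := by
    by_contra hcon
    push Not at hcon
    have h7 : (S + I) * (S + I) ≤ (2 * z) * (2 * z) :=
      mul_self_le_mul_self (by positivity) hcon
    nlinarith [mul_pos (sub_pos.mpr hIS) (sub_pos.mpr hIS)]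
  have h8 : 2 * z * (A ^ 2 + A * z + al + z) < (S + I) * (A ^ 2 + A * z + al + z) :=
    mul_lt_mul_of_pos_right hsum hK0
  have h9 : (2 * A + z) * E * z ^ 2 ≤ (2 * A + z) * E * (S * I) :=
    mul_le_mul_of_nonneg_left hSI (by positivity)
  have h10 : 0 ≤ z * ((A ^ 2 + A * z + al + z) + al * E - E ^ 2 * z ^ 2) := by
    rw [hKz]
    exact mul_nonneg hz.le hq
  nlinarith [h4, h8, h9, h10, hR]

end Pool.Agent.E8helper42.RR
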